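import Mathlib

/-!
# Complex polynomials with small coefficients and leading coefficient not too small
-/

set_option autoImplicit false

namespace Pool.Agent.Q277.SN

open Polynomial Finset

/-- geometric sum -/
lemma geom_le {t : ℝ} (ht : 2 ≤ t) (d : ℕ) : ∑ j ∈ range d, t ^ j ≤ 2 * t ^ d / t := by
  have ht0 : 0 < t := by linarith
  rw [le_div_iff₀ ht0]
  induction d with
  | zero => simp
  | succ d ih =>
    rw [Finset.sum_range_succ, add_mul, pow_succ]
    have h1 : 0 < t ^ d := by positivity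
    nlinarith

variable {p : ℂ[X]} {H t : ℝ}

lemma tail_le (hH : 0 ≤ H) (ht : 2 ≤ t) (hp : ∀ j, ‖p.coeff j‖ ≤ H) :
    ‖∑ j ∈ range p.natDegree, p.coeff j * (t : ℂ) ^ j‖ ≤ H * (2 * t ^ p.natDegree / t) := by
  have ht0 : 0 < t := by linarith
  refine (norm_sum_le _ _).trans ?_
  calc ∑ j ∈ range p.natDegree, ‖p.coeff j * (t : ℂ) ^ j‖
      ≤ ∑ j ∈ range p.natDegree, H * t ^ j := by
        refine Finset.sum_le_sum fun j _ => ?_
        rw [norm_mul, norm_pow, Complex.norm_real, Real.norm_of_nonneg ht0.le]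
        exact mul_le_mul_of_nonneg_right (hp j) (by positivity)
    _ = H * ∑ j ∈ range p.natDegree, t ^ j := by rw [Finset.mul_sum]
    _ ≤ _ := mul_le_mul_of_nonneg_left (geom_le ht _) hH

lemma value_upper (hH : 0 ≤ H) (ht : 2 ≤ t) (hp : ∀ j, ‖p.coeff j‖ ≤ H) :
    ‖p.eval (t : ℂ)‖ ≤ 2 * H * t ^ p.natDegree := by
  have ht0 : 0 < t := by linarith
  rw [eval_eq_sum_range, Finset.sum_range_succ]
  refine (norm_add_le _ _).trans ?_
  have h1 := tail_le hH ht hp
  have h2 : ‖p.coeff p.natDegree * (t : ℂ) ^ p.natDegree‖ ≤ H * t ^ p.natDegree := by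
    rw [norm_mul, norm_pow, Complex.norm_real, Real.norm_of_nonneg ht0.le]
    exact mul_le_mul_of_nonneg_right (hp _) (by positivity)
  have h3 : 2 * t ^ p.natDegree / t ≤ t ^ p.natDegree := by
    rw [div_le_iff₀ ht0]
    have : 0 < t ^ p.natDegree := by positivity
    nlinarith
  have h4 := mul_le_mul_of_nonneg_left h3 hH
  linarith

lemma value_lower (hH : 1 ≤ H) (ht : 4 * H ^ 2 ≤ t) (hp : ∀ j, ‖p.coeff j‖ ≤ H)
    (hl : H⁻¹ ≤ ‖p.leadingCoeff‖) :
    t ^ p.natDegree ≤ 2 * H * ‖p.eval (t : ℂ)‖ := by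
  have ht2 : 2 ≤ t := by nlinarith
  have ht0 : 0 < t := by linarith
  have hH0 : 0 < H := by linarith
  have h1 := tail_le hH0.le ht2 hp
  have h2 : H⁻¹ * t ^ p.natDegree ≤ ‖p.coeff p.natDegree * (t : ℂ) ^ p.natDegree‖ := by
    rw [norm_mul, norm_pow, Complex.norm_real, Real.norm_of_nonneg ht0.le]
    exact mul_le_mul_of_nonneg_right hl (by positivity)
  have h3 : ‖p.coeff p.natDegree * (t : ℂ) ^ p.natDegree‖
      ≤ ‖p.eval (t : ℂ)‖ + ‖∑ j ∈ range p.natDegree, p.coeff j * (t : ℂ) ^ j‖ := by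
    rw [eval_eq_sum_range, Finset.sum_range_succ]
    have := norm_sub_le (∑ j ∈ range p.natDegree, p.coeff j * (t : ℂ) ^ j
      + p.coeff p.natDegree * (t : ℂ) ^ p.natDegree)
      (∑ j ∈ range p.natDegree, p.coeff j * (t : ℂ) ^ j)
    rwa [add_sub_cancel_left] at this
  have h4 : H * (2 * t ^ p.natDegree / t) ≤ H⁻¹ / 2 * t ^ p.natDegree := by
    have h5 : 0 < t ^ p.natDegree := by positivity
    have h6 : H * (2 / t) ≤ H⁻¹ / 2 := by
      rw [mul_div_assoc', div_le_iff₀ ht0]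
      have h7 : H⁻¹ / 2 * (4 * H ^ 2) ≤ H⁻¹ / 2 * t := mul_le_mul_of_nonneg_left ht (by positivity)
      have h8 : H⁻¹ / 2 * (4 * H ^ 2) = H * 2 := by field_simp; ring
      linarith
    calc H * (2 * t ^ p.natDegree / t) = H * (2 / t) * t ^ p.natDegree := by ring
      _ ≤ _ := mul_le_mul_of_nonneg_right h6 h5.le
  have h5 : H⁻¹ / 2 * t ^ p.natDegree ≤ ‖p.eval (t : ℂ)‖ := by linarith
  have h6 : 2 * H * (H⁻¹ / 2 * t ^ p.natDegree) = t ^ p.natDegree := by field_simp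
  rw [← h6]
  exact mul_le_mul_of_nonneg_left h5 (by positivity)

/-- the roots are small -/
lemma root_lt (hH : 1 ≤ H) (hp : ∀ j, ‖p.coeff j‖ ≤ H) (hl : H⁻¹ ≤ ‖p.leadingCoeff‖) {z : ℂ}
    (hz : p.IsRoot z) : ‖z‖ < H ^ 2 + 1 := by
  have hH0 : 0 < H := by linarith
  have hl0 : 0 < ‖p.leadingCoeff‖ := lt_of_lt_of_le (by positivity) hl
  have hp0 : p ≠ 0 := by
    rintro rfl
    simp at hl0
  have h1 := hz.norm_lt_cauchyBound hp0
  have h2 : (cauchyBound p : ℝ) ≤ H ^ 2 + 1 := by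
    unfold cauchyBound
    rw [NNReal.coe_add, NNReal.coe_div, NNReal.coe_one, coe_nnnorm]
    have h3 : (((range p.natDegree).sup fun x => ‖p.coeff x‖₊ : NNReal) : ℝ) ≤ H := by
      have h4 : ((range p.natDegree).sup fun x => ‖p.coeff x‖₊) ≤ (⟨H, hH0.le⟩ : NNReal) := by
        refine Finset.sup_le fun x _ => ?_
        exact hp x
      exact h4
    have h5 : (((range p.natDegree).sup fun x => ‖p.coeff x‖₊ : NNReal) : ℝ) / ‖p.leadingCoeff‖
        ≤ H ^ 2 := by
      rw [div_le_iff₀ hl0]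
      have h6 : H ^ 2 * H⁻¹ ≤ H ^ 2 * ‖p.leadingCoeff‖ := mul_le_mul_of_nonneg_left hl (by positivity)
      have h7 : H ^ 2 * H⁻¹ = H := by field_simp
      linarith
    linarith
  exact lt_of_lt_of_le h1 h2

/-- a monic factor is large -/
lemma factor_large (hH : 1 ≤ H) (ht : H ^ 2 + 2 ≤ t) (hp : ∀ j, ‖p.coeff j‖ ≤ H)
    (hl : H⁻¹ ≤ ‖p.leadingCoeff‖) {g : ℂ[X]} (hg : g.Monic) (hgd : 0 < g.natDegree) (hgp : g ∣ p) :
    1 < ‖g.eval (t : ℂ)‖ := by
  have hsp := IsAlgClosed.splits g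
  have h1 := hsp.eval_eq_prod_roots_of_monic hg (t : ℂ)
  have hH0 : 0 < H := by linarith
  have hl0 : 0 < ‖p.leadingCoeff‖ := lt_of_lt_of_le (by positivity) hl
  have hp0 : p ≠ 0 := by
    rintro rfl
    simp at hl0
  have hcard : 0 < Multiset.card g.roots := by
    rw [← hsp.natDegree_eq_card_roots]
    exact hgd
  have hroot : ∀ z ∈ g.roots, 1 < ‖(t : ℂ) - z‖ := by
    intro z hz
    have h2 : p.IsRoot z := (isRoot_of_mem_roots hz).dvd hgp
    have h3 := root_lt hH hp hl h2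
    have h4 : ‖(t : ℂ)‖ - ‖z‖ ≤ ‖(t : ℂ) - z‖ := norm_sub_norm_le _ _
    rw [Complex.norm_real, Real.norm_of_nonneg (by nlinarith)] at h4
    linarith
  rw [h1]
  have key : ∀ s : Multiset ℂ, 0 < Multiset.card s → (∀ z ∈ s, 1 < ‖(t : ℂ) - z‖) →
      1 < ‖(s.map fun z => (t : ℂ) - z).prod‖ := by
    intro s
    induction s using Multiset.induction_on with
    | empty => intro h; simp at h
    | cons a s ih =>
      intro _ h
      rw [Multiset.map_cons, Multiset.prod_cons, norm_mul]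
      have ha := h a (Multiset.mem_cons_self a s)
      rcases Nat.eq_zero_or_pos (Multiset.card s) with h0 | h0
      · rw [Multiset.card_eq_zero.mp h0]
        simpa using ha
      · have h5 := ih h0 fun z hz => h z (Multiset.mem_cons_of_mem hz)
        nlinarith
  exact key _ hcard hroot

end Pool.Agent.Q277.SN
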