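import Mathlib
import Pool.Agent.Q103.SD.Abc
import Pool.Agent.Q277.SN.Arch

/-!
# Polynomials over the integers of a number field with small coefficients
-/

set_option autoImplicit false
set_option linter.unusedSectionVars false

namespace Pool.Agent.Q277.SN

open Polynomial Finset NumberField

variable {L : Type} [Field L] [NumberField L]

/-- the inclusion of the integers -/
noncomputable abbrev io (L : Type) [Field L] [NumberField L] : 𝓞 L →+* L := algebraMap (𝓞 L) L

/-- the house is a size function -/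
lemma house_size : Pool.Agent.Q103.SD.SizeFn (fun x : 𝓞 L => house (io L x)) where
  nonneg x := house_nonneg _
  zero := by simp [house]
  one := by
    have h := house_intCast (K := L) 1
    simp only [Int.cast_one, abs_one] at h
    simp only [map_one]
    exact h.le
  add x y := by
    rw [map_add]
    exact house_add_le _ _
  mul x y := by
    rw [map_mul]
    exact house_mul_le _ _

lemma eq_zero_of_dvd {t : ℕ} {x : 𝓞 L} (h : (t : 𝓞 L) ∣ x) (hx : house (io L x) < t) : x = 0 := by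
  obtain ⟨y, rfl⟩ := h
  by_contra hne
  have hy : y ≠ 0 := fun h => hne (by rw [h, mul_zero])
  rw [map_mul, map_natCast, house_nat_mul] at hx
  have h1 := one_le_house_of_isIntegral (K := L) (RingOfIntegers.isIntegral_coe y)
    (RingOfIntegers.coe_ne_zero_iff.mpr hy)
  have h2 : (0 : ℝ) ≤ t := Nat.cast_nonneg t
  nlinarith

/-- the complex polynomial -/
noncomputable def cp (σ : L →+* ℂ) (P : (𝓞 L)[X]) : ℂ[X] := P.map (σ.comp (io L))

lemma inj_comp (σ : L →+* ℂ) : Function.Injective (σ.comp (io L)) :=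
  σ.injective.comp RingOfIntegers.coe_injective

lemma cp_coeff (σ : L →+* ℂ) (P : (𝓞 L)[X]) (j : ℕ) : (cp σ P).coeff j = σ (io L (P.coeff j)) := by
  unfold cp
  rw [coeff_map]
  rfl

lemma cp_deg (σ : L →+* ℂ) (P : (𝓞 L)[X]) : (cp σ P).natDegree = P.natDegree :=
  natDegree_map_eq_of_injective (inj_comp σ) P

lemma cp_lead (σ : L →+* ℂ) (P : (𝓞 L)[X]) : (cp σ P).leadingCoeff = σ (io L P.leadingCoeff) := by
  unfold cp
  rw [leadingCoeff_map_of_injective (inj_comp σ)]
  rfl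

lemma cp_eval (σ : L →+* ℂ) (P : (𝓞 L)[X]) (t : ℕ) :
    (cp σ P).eval ((t : ℝ) : ℂ) = σ (io L (P.eval (t : 𝓞 L))) := by
  unfold cp
  have h : (((t : ℝ) : ℂ)) = (σ.comp (io L)) (t : 𝓞 L) := by
    rw [map_natCast, Complex.ofReal_natCast]
  rw [h, eval_map_apply]
  rfl

/-- a polynomial with digits of size at most `H` and leading coefficient not too small -/
structure Dig (H : ℝ) (P : (𝓞 L)[X]) : Prop where
  coeff : ∀ j, house (io L (P.coeff j)) ≤ H
  lead : ∀ σ : L →+* ℂ, H⁻¹ ≤ ‖σ (io L P.leadingCoeff)‖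

variable {H : ℝ} {P : (𝓞 L)[X]}

lemma Dig.cp_le (h : Dig H P) (σ : L →+* ℂ) (j : ℕ) : ‖(cp σ P).coeff j‖ ≤ H := by
  rw [cp_coeff]
  exact (norm_embedding_le_house _ σ).trans (h.coeff j)

lemma Dig.cp_lead (h : Dig H P) (σ : L →+* ℂ) : H⁻¹ ≤ ‖(cp σ P).leadingCoeff‖ := by
  rw [Pool.Agent.Q277.SN.cp_lead]
  exact h.lead σ

lemma Dig.upper (h : Dig H P) (hH : 1 ≤ H) {t : ℕ} (ht : 4 * H ^ 2 ≤ t) (σ : L →+* ℂ) :
    ‖σ (io L (P.eval (t : 𝓞 L)))‖ ≤ 2 * H * (t : ℝ) ^ P.natDegree := by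
  have h1 := value_upper (t := (t : ℝ)) (by linarith) (by nlinarith) (h.cp_le σ)
  rwa [cp_eval, cp_deg] at h1

lemma Dig.lower (h : Dig H P) (hH : 1 ≤ H) {t : ℕ} (ht : 4 * H ^ 2 ≤ t) (σ : L →+* ℂ) :
    (t : ℝ) ^ P.natDegree ≤ 2 * H * ‖σ (io L (P.eval (t : 𝓞 L)))‖ := by
  have h1 := value_lower (t := (t : ℝ)) hH ht (h.cp_le σ) (h.cp_lead σ)
  rwa [cp_eval, cp_deg] at h1

lemma Dig.ne_zero (h : Dig H P) (hH : 1 ≤ H) {t : ℕ} (ht : 4 * H ^ 2 ≤ t) :
    P.eval (t : 𝓞 L) ≠ 0 := by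
  intro h0
  obtain ⟨σ⟩ := (inferInstance : Nonempty (L →+* ℂ))
  have h1 := h.lower hH ht σ
  rw [h0, map_zero, map_zero, norm_zero, mul_zero] at h1
  have ht0 : (0 : ℝ) < t := by nlinarith
  have : (0 : ℝ) < (t : ℝ) ^ P.natDegree := by positivity
  linarith

/-- evaluation is bounded by the Gauss norm -/
lemma eval_le_gauss (w : AbsoluteValue L ℝ) (hna : IsNonarchimedean w) (p : L[X]) {x : L}
    (hx : w x ≤ 1) : w (p.eval x) ≤ p.gaussNorm w 1 := by
  rw [eval_eq_sum_range]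
  obtain ⟨j, -, hj⟩ := IsNonarchimedean.finset_image_add_of_nonempty hna
    (fun i => p.coeff i * x ^ i) (nonempty_range_add_one (n := p.natDegree))
  refine hj.trans ?_
  rw [map_mul, map_pow]
  have h1 := p.le_gaussNorm w (c := 1) zero_le_one j
  rw [one_pow, mul_one] at h1
  have h2 : w x ^ j ≤ 1 := pow_le_one₀ (w.nonneg _) hx
  have h3 := w.nonneg (p.coeff j)
  nlinarith

lemma gauss_le_one (w : AbsoluteValue L ℝ) (hw : ∀ x : 𝓞 L, w (io L x) ≤ 1) (P : (𝓞 L)[X]) :
    (P.map (io L)).gaussNorm w 1 ≤ 1 := by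
  obtain ⟨i, hi⟩ := (P.map (io L)).exists_eq_gaussNorm w 1
  rw [hi, one_pow, mul_one, coeff_map]
  exact hw _

/-- the finite part of the coprimality -/
lemma one_le_of_dvd (w : AbsoluteValue L ℝ) (hna : IsNonarchimedean w)
    (hw : ∀ x : 𝓞 L, w (io L x) ≤ 1) {P : (𝓞 L)[X]} {g : L[X]} (hg : g.Monic)
    (hgP : g ∣ P.map (io L)) (t : ℕ) :
    w (io L (P.eval (t : 𝓞 L))) ≤ w (g.eval (t : L)) := by
  obtain ⟨u, hu⟩ := hgP
  have ht : w (t : L) ≤ 1 := by
    have := hw (t : 𝓞 L)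
    rwa [map_natCast] at this
  have h1 : w (io L (P.eval (t : 𝓞 L))) = w (g.eval (t : L)) * w (u.eval (t : L)) := by
    rw [← map_mul, ← eval_mul, ← hu]
    congr 1
    have h2 : (t : L) = algebraMap (𝓞 L) L (t : 𝓞 L) := by rw [map_natCast]
    rw [h2, eval_map_apply]
  have h2 := gaussNorm_mul hna (c := 1) one_pos g u
  rw [← hu] at h2
  have h3 := gauss_le_one w hw P
  have h4 : 1 ≤ g.gaussNorm w 1 := by
    have h5 := g.le_gaussNorm w (c := 1) zero_le_one g.natDegree
    rwa [coeff_natDegree, hg.leadingCoeff, map_one, one_pow, mul_one] at h5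
  have h5 := eval_le_gauss w hna u ht
  have h6 : 0 ≤ u.gaussNorm w 1 := u.gaussNorm_nonneg w zero_le_one
  have h7 : u.gaussNorm w 1 ≤ 1 := by nlinarith
  rw [h1]
  have h8 := w.nonneg (g.eval (t : L))
  have h9 := w.nonneg (u.eval (t : L))
  nlinarith

/-- **Coprime values come from coprime polynomials.** -/
theorem coprime_of_eval {P Q : (𝓞 L)[X]} (hP : Dig H P) (hH : 1 ≤ H) {t : ℕ}
    (ht : H ^ 2 + 2 ≤ t) (hcop : IsCoprime (P.eval (t : 𝓞 L)) (Q.eval (t : 𝓞 L))) :
    IsCoprime (P.map (io L)) (Q.map (io L)) := by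
  classical
  by_contra hcon
  have hinj : Function.Injective (io L) := RingOfIntegers.coe_injective
  have hP0 : P ≠ 0 := by
    rintro rfl
    obtain ⟨σ⟩ := (inferInstance : Nonempty (L →+* ℂ))
    have h1 := hP.lead σ
    rw [leadingCoeff_zero, map_zero, map_zero, norm_zero] at h1
    have : 0 < H⁻¹ := by positivity
    linarith
  have hP1 : P.map (io L) ≠ 0 := (Polynomial.map_ne_zero_iff hinj).mpr hP0
  obtain ⟨g₀, hg₀, hgP₀, hgQ₀⟩ : ∃ g : L[X], Irreducible g ∧ g ∣ P.map (io L) ∧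
      g ∣ Q.map (io L) := by
    by_contra hno
    push Not at hno
    apply hcon
    apply isCoprime_of_irreducible_dvd
    · intro h0
      exact hP1 h0.1
    · intro z hz h1 h2
      exact hno z hz h1 h2
  obtain ⟨g, hg⟩ : ∃ g, g = g₀ * C g₀.leadingCoeff⁻¹ := ⟨_, rfl⟩
  have hgm : g.Monic := by rw [hg]; exact monic_mul_leadingCoeff_inv hg₀.ne_zero
  have hu : IsUnit (C g₀.leadingCoeff⁻¹) :=
    isUnit_C.mpr (isUnit_iff_ne_zero.mpr (inv_ne_zero (leadingCoeff_ne_zero.mpr hg₀.ne_zero)))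
  have hgP : g ∣ P.map (io L) := by rw [hg]; exact hu.mul_right_dvd.mpr hgP₀
  have hgQ : g ∣ Q.map (io L) := by rw [hg]; exact hu.mul_right_dvd.mpr hgQ₀
  have hgd : 0 < g.natDegree := by
    rw [hg, natDegree_mul_C (inv_ne_zero (leadingCoeff_ne_zero.mpr hg₀.ne_zero))]
    exact hg₀.natDegree_pos
  obtain ⟨x, hx⟩ : ∃ x, x = g.eval (t : L) := ⟨_, rfl⟩
  -- the infinite places
  have harch : ∀ σ : L →+* ℂ, 1 < ‖σ x‖ := by
    intro σ
    have hdvd : g.map σ ∣ cp σ P := by
      unfold cp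
      rw [← Polynomial.map_map]
      exact Polynomial.map_dvd σ hgP
    have h1 := factor_large (t := (t : ℝ)) hH ht (hP.cp_le σ) (hP.cp_lead σ) (hgm.map σ)
      (by rw [natDegree_map]; exact hgd) hdvd
    have h2 : (g.map σ).eval ((t : ℝ) : ℂ) = σ x := by
      have h3 : (((t : ℝ) : ℂ)) = σ (t : L) := by rw [map_natCast, Complex.ofReal_natCast]
      rw [h3, eval_map_apply, hx]
    rwa [h2] at h1
  have hx0 : x ≠ 0 := by
    rintro h0
    obtain ⟨σ⟩ := (inferInstance : Nonempty (L →+* ℂ))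
    have := harch σ
    rw [h0, map_zero, norm_zero] at this
    linarith
  -- the finite places
  obtain ⟨y, z, hyz⟩ := hcop
  have hfin : ∀ w : FinitePlace L, 1 ≤ w x := by
    intro w
    have hna : IsNonarchimedean w.1 := fun a b => w.add_le a b
    have hw : ∀ a : 𝓞 L, w.1 (io L a) ≤ 1 := by
      intro a
      have h1 := FinitePlace.norm_embedding_eq w (io L a)
      have h2 := FinitePlace.norm_le_one (K := L) w.maximalIdeal a
      rw [FinitePlace.coe_apply] at h1
      rw [← h1]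
      exact h2
    have h1 := one_le_of_dvd w.1 hna hw hgm hgP t
    have h2 := one_le_of_dvd w.1 hna hw hgm hgQ t
    have h3 : w.1 (io L (y * P.eval (t : 𝓞 L) + z * Q.eval (t : 𝓞 L))) = 1 := by
      rw [hyz, map_one, map_one]
    rw [map_add] at h3
    have h4 := hna (io L (y * P.eval (t : 𝓞 L))) (io L (z * Q.eval (t : 𝓞 L)))
    rw [h3, le_max_iff, map_mul, map_mul, map_mul, map_mul] at h4
    change 1 ≤ w.1 x
    rw [hx]
    have h5 := hw y
    have h6 := hw z
    have h7 := w.1.nonneg (io L (P.eval (t : 𝓞 L)))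
    have h8 := w.1.nonneg (io L (Q.eval (t : 𝓞 L)))
    rcases h4 with h4 | h4 <;> nlinarith
  have hpf := prod_abs_eq_one (K := L) hx0
  have h1 : 1 ≤ ∏ᶠ w : FinitePlace L, w x :=
    finprod_induction (fun r : ℝ => 1 ≤ r) le_rfl (fun a b ha hb => by nlinarith) hfin
  have h2 : 1 < ∏ w : InfinitePlace L, w x ^ w.mult := by
    have h3 : ∀ w : InfinitePlace L, 1 < w x ^ w.mult := by
      intro w
      refine one_lt_pow₀ ?_ w.mult_pos.ne'
      rw [← InfinitePlace.norm_embedding_eq]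
      exact harch _
    have h4 : ∀ s : Finset (InfinitePlace L), s.Nonempty → 1 < ∏ w ∈ s, w x ^ w.mult := by
      intro s hs
      induction hs using Finset.Nonempty.cons_induction with
      | singleton a => simpa using h3 a
      | cons a s ha hs ih =>
        rw [Finset.prod_cons]
        have := h3 a
        nlinarith
    exact h4 Finset.univ Finset.univ_nonempty
  nlinarith

end Pool.Agent.Q277.SN
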