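import Mathlib
import Pool.Agent.Q277.SN.Fld

/-!
# Degrees in a three-term identity, sizes
-/

set_option autoImplicit false
set_option linter.unusedSectionVars false

namespace Pool.Agent.Q277.SN

open Polynomial Finset NumberField

variable {L : Type} [Field L] [NumberField L]

/-- the bases that occur -/
def used {m : ℕ} (l b c : Fin m → ℕ) : Finset (Fin m) :=
  Finset.univ.filter (fun i => l i ≠ 0 ∨ b i ≠ 0 ∨ c i ≠ 0)

/-- the data -/
structure Data (K : ℕ) (H : ℝ) {m : ℕ} (F : Fin m → (𝓞 L)[X]) (α β γ : 𝓞 L)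
    (l b c : Fin m → ℕ) : Prop where
  pos : ∀ i, 0 < (F i).natDegree
  deg : ∑ i, (F i).natDegree ≤ K
  dig : ∀ i, Dig H (F i)
  last : ∀ i, house (io L ((F i).coeff 0)) ≤ 1
  α0 : α ≠ 0
  β0 : β ≠ 0
  γ0 : γ ≠ 0
  αH : house (io L α) ≤ H
  βH : house (io L β) ≤ H
  γH : house (io L γ) ≤ H
  lH : ((∑ i, l i : ℕ) : ℝ) ≤ H
  bH : ((∑ i, b i : ℕ) : ℝ) ≤ H
  cH : ((∑ i, c i : ℕ) : ℝ) ≤ H

variable {m : ℕ} {F : Fin m → (𝓞 L)[X]} {α β γ : 𝓞 L} {l b c : Fin m → ℕ}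

lemma ne_of_pos (hpos : ∀ i, 0 < (F i).natDegree) (i : Fin m) : F i ≠ 0 := by
  intro h
  have := hpos i
  rw [h, natDegree_zero] at this
  omega

lemma io_inj : Function.Injective (io L) := RingOfIntegers.coe_injective

theorem coprime_poly {K : ℕ} {H : ℝ} {t : ℕ} (hD : Data K H F α β γ l b c) (hH : 1 ≤ H)
    (hHt : H ^ 2 + 2 ≤ t)
    (hcop : IsCoprime (α * ∏ i, (F i).eval (t : 𝓞 L) ^ l i)
      (β * ∏ i, (F i).eval (t : 𝓞 L) ^ b i)) :
    IsCoprime ((C α * ∏ i, F i ^ l i).map (io L)) ((C β * ∏ i, F i ^ b i).map (io L)) := by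
  have hα : io L α ≠ 0 := (map_ne_zero_iff _ io_inj).mpr hD.α0
  have hβ : io L β ≠ 0 := (map_ne_zero_iff _ io_inj).mpr hD.β0
  rw [Polynomial.map_mul, Polynomial.map_mul, map_C, map_C, Polynomial.map_prod,
    Polynomial.map_prod]
  have hu1 : IsUnit (C (io L α)) := isUnit_C.mpr (isUnit_iff_ne_zero.mpr hα)
  have hu2 : IsUnit (C (io L β)) := isUnit_C.mpr (isUnit_iff_ne_zero.mpr hβ)
  rw [isCoprime_mul_unit_left_left hu1, isCoprime_mul_unit_left_right hu2]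
  apply IsCoprime.prod_left
  intro i _
  apply IsCoprime.prod_right
  intro j _
  rw [Polynomial.map_pow, Polynomial.map_pow]
  by_cases hi : l i = 0
  · rw [hi, pow_zero]; exact isCoprime_one_left
  by_cases hj : b j = 0
  · rw [hj, pow_zero]; exact isCoprime_one_right
  apply IsCoprime.pow
  refine coprime_of_eval (hD.dig i) hH hHt ?_
  refine (hcop.of_isCoprime_of_dvd_left ?_).of_isCoprime_of_dvd_right ?_
  · exact Dvd.dvd.mul_left ((dvd_pow_self _ hi).trans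
      (Finset.dvd_prod_of_mem (fun i => (F i).eval (t : 𝓞 L) ^ l i) (Finset.mem_univ i))) _
  · exact Dvd.dvd.mul_left ((dvd_pow_self _ hj).trans
      (Finset.dvd_prod_of_mem (fun i => (F i).eval (t : 𝓞 L) ^ b i) (Finset.mem_univ j))) _

theorem radical_deg [DecidableEq L] {U : Finset (Fin m)} {P : L[X]} (hP : P ≠ 0)
    (hF0 : ∀ i, F i ≠ 0) (h : ∃ k, P ∣ (∏ i ∈ U, (F i).map (io L)) ^ k) :
    (UniqueFactorizationMonoid.radical P).natDegree ≤ ∑ i ∈ U, (F i).natDegree := by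
  have h1 := (UniqueFactorizationMonoid.exists_dvd_pow_iff_radical_dvd hP).mp h
  have h2 : ∏ i ∈ U, (F i).map (io L) ≠ 0 :=
    Finset.prod_ne_zero_iff.mpr fun i _ => (Polynomial.map_ne_zero_iff io_inj).mpr (hF0 i)
  refine (natDegree_le_of_dvd h1 h2).trans ((natDegree_prod_le _ _).trans ?_)
  apply Finset.sum_le_sum
  intro i _
  exact natDegree_map_le

/-- **The degrees in the identity.** -/
theorem degrees (hpos : ∀ i, 0 < (F i).natDegree) (hα0 : α ≠ 0) (hβ0 : β ≠ 0) (hγ0 : γ ≠ 0)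
    (hco : IsCoprime ((C α * ∏ i, F i ^ l i).map (io L)) ((C β * ∏ i, F i ^ b i).map (io L)))
    (hid : C α * ∏ i, F i ^ l i + C β * ∏ i, F i ^ b i + C γ * ∏ i, F i ^ c i = 0)
    (hU : (used l b c).Nonempty) :
    ∑ i, l i * (F i).natDegree + 1 ≤ ∑ i ∈ used l b c, (F i).natDegree ∧
    ∑ i, b i * (F i).natDegree + 1 ≤ ∑ i ∈ used l b c, (F i).natDegree ∧
    ∑ i, c i * (F i).natDegree + 1 ≤ ∑ i ∈ used l b c, (F i).natDegree := by
  classical
  have hF0 : ∀ i, F i ≠ 0 := ne_of_pos hpos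
  have hnz : ∀ (η : 𝓞 L) (e : Fin m → ℕ), η ≠ 0 →
      (C η * ∏ i, F i ^ e i).map (io L) ≠ 0 := fun η e hη =>
    (Polynomial.map_ne_zero_iff io_inj).mpr (mul_ne_zero (C_ne_zero.mpr hη)
      (Finset.prod_ne_zero_iff.mpr fun i _ => pow_ne_zero _ (hF0 i)))
  have hdeg : ∀ (η : 𝓞 L) (e : Fin m → ℕ), η ≠ 0 →
      ((C η * ∏ i, F i ^ e i).map (io L)).natDegree = ∑ i, e i * (F i).natDegree := by
    intro η e hη
    rw [natDegree_map_eq_of_injective io_inj, natDegree_C_mul hη,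
      natDegree_prod _ _ (fun i _ => pow_ne_zero _ (hF0 i))]
    apply Finset.sum_congr rfl
    intro i _
    rw [natDegree_pow]
  obtain ⟨P, hP⟩ : ∃ P, P = (C α * ∏ i, F i ^ l i).map (io L) := ⟨_, rfl⟩
  obtain ⟨Q, hQ⟩ : ∃ Q, Q = (C β * ∏ i, F i ^ b i).map (io L) := ⟨_, rfl⟩
  obtain ⟨R, hR⟩ : ∃ R, R = (C γ * ∏ i, F i ^ c i).map (io L) := ⟨_, rfl⟩
  have hsum : P + Q + R = 0 := by
    rw [hP, hQ, hR, ← Polynomial.map_add, ← Polynomial.map_add, hid, Polynomial.map_zero]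
  have hP0 : P ≠ 0 := by rw [hP]; exact hnz α l hα0
  have hQ0 : Q ≠ 0 := by rw [hQ]; exact hnz β b hβ0
  have hR0 : R ≠ 0 := by rw [hR]; exact hnz γ c hγ0
  have hdvd : ∀ (η : 𝓞 L) (e : Fin m → ℕ), η ≠ 0 → (∀ i, e i ≠ 0 → i ∈ used l b c) →
      (C η * ∏ i, F i ^ e i).map (io L) ∣
        (∏ i ∈ used l b c, (F i).map (io L)) ^ (∑ i, e i) := by
    intro η e hη he
    rw [Polynomial.map_mul, map_C, Polynomial.map_prod]
    have hη' : io L η ≠ 0 := (map_ne_zero_iff _ io_inj).mpr hη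
    have hu1 : IsUnit (C (io L η)) := isUnit_C.mpr (isUnit_iff_ne_zero.mpr hη')
    refine (hu1.mul_left_dvd).mpr ?_
    rw [← Finset.prod_pow_eq_pow_sum]
    apply Finset.prod_dvd_prod_of_dvd
    intro i _
    rw [Polynomial.map_pow]
    by_cases hi : e i = 0
    · rw [hi, pow_zero, pow_zero]
    · exact pow_dvd_pow_of_dvd (Finset.dvd_prod_of_mem _ (he i hi)) _
  have hrad : (UniqueFactorizationMonoid.radical (P * Q * R)).natDegree ≤
      ∑ i ∈ used l b c, (F i).natDegree := by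
    refine radical_deg (mul_ne_zero (mul_ne_zero hP0 hQ0) hR0) hF0
      ⟨∑ i, l i + ∑ i, b i + ∑ i, c i, ?_⟩
    rw [pow_add, pow_add, hP, hQ, hR]
    refine mul_dvd_mul (mul_dvd_mul ?_ ?_) ?_
    · exact hdvd α l hα0 fun i hi => Finset.mem_filter.mpr ⟨Finset.mem_univ _, Or.inl hi⟩
    · exact hdvd β b hβ0 fun i hi => Finset.mem_filter.mpr ⟨Finset.mem_univ _, Or.inr (Or.inl hi)⟩
    · exact hdvd γ c hγ0 fun i hi => Finset.mem_filter.mpr ⟨Finset.mem_univ _, Or.inr (Or.inr hi)⟩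
  have hcoPQ : IsCoprime P Q := by rw [hP, hQ]; exact hco
  rcases Polynomial.abc hP0 hQ0 hR0 hcoPQ hsum with ⟨h1, h2, h3⟩ | ⟨h1, h2, h3⟩
  · have e1 := hdeg α l hα0
    have e2 := hdeg β b hβ0
    have e3 := hdeg γ c hγ0
    rw [← hP] at e1
    rw [← hQ] at e2
    rw [← hR] at e3
    omega
  · exfalso
    obtain ⟨i, hi⟩ := hU
    have z1 := derivative_eq_zero.mp h1
    have z2 := derivative_eq_zero.mp h2
    have z3 := derivative_eq_zero.mp h3
    rw [hP, hdeg α l hα0] at z1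
    rw [hQ, hdeg β b hβ0] at z2
    rw [hR, hdeg γ c hγ0] at z3
    have hone : ∀ e : Fin m → ℕ, ∑ i, e i * (F i).natDegree = 0 → e i = 0 := by
      intro e he
      have h4 := (Finset.sum_eq_zero_iff.mp he) i (Finset.mem_univ i)
      rcases Nat.mul_eq_zero.mp h4 with h5 | h5
      · exact h5
      · have := hpos i
        omega
    rcases (Finset.mem_filter.mp hi).2 with h4 | h4 | h4
    · exact h4 (hone l z1)
    · exact h4 (hone b z2)
    · exact h4 (hone c z3)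

/-- size of a product of powers -/
theorem size_PP {H : ℝ} {t : ℕ} (hH : 1 ≤ H) (hHt : 4 * H ^ 2 ≤ t) (hF : ∀ i, Dig H (F i))
    (hpos : ∀ i, 0 < (F i).natDegree) {η : 𝓞 L} (hη : house (io L η) ≤ H) (e : Fin m → ℕ) {d : ℕ}
    (hd : ∑ i, e i * (F i).natDegree ≤ d) (σ : L →+* ℂ) :
    ‖σ (io L (η * ∏ i, (F i).eval (t : 𝓞 L) ^ e i))‖ ≤ H * ((2 * H) ^ d * (t : ℝ) ^ d) := by
  have hT : (2 : ℝ) ≤ t := by nlinarith
  rw [map_mul, map_mul, norm_mul, map_prod, map_prod, norm_prod]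
  have h1 : ∏ i, ‖σ (io L ((F i).eval (t : 𝓞 L) ^ e i))‖ ≤
      ∏ i, ((2 * H) ^ (e i * (F i).natDegree) * (t : ℝ) ^ (e i * (F i).natDegree)) := by
    apply Finset.prod_le_prod (fun i _ => norm_nonneg _)
    intro i _
    have h2 := (hF i).upper hH hHt σ
    rw [map_pow, map_pow, norm_pow, ← mul_pow, mul_comm (e i), pow_mul]
    apply pow_le_pow_left₀ (norm_nonneg _)
    refine h2.trans ?_
    rw [mul_pow]
    apply mul_le_mul_of_nonneg_right _ (by positivity)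
    exact le_self_pow₀ (by linarith) (hpos i).ne'
  have h2 : ∏ i, ((2 * H) ^ (e i * (F i).natDegree) * (t : ℝ) ^ (e i * (F i).natDegree)) ≤
      (2 * H) ^ d * (t : ℝ) ^ d := by
    rw [Finset.prod_mul_distrib, Finset.prod_pow_eq_pow_sum, Finset.prod_pow_eq_pow_sum]
    apply mul_le_mul (pow_le_pow_right₀ (by linarith) hd) (pow_le_pow_right₀ (by linarith) hd)
      (by positivity) (by positivity)
  exact mul_le_mul ((norm_embedding_le_house _ σ).trans hη) (h1.trans h2)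
    (Finset.prod_nonneg fun i _ => norm_nonneg _) (by linarith)

/-- lower bound for the product of the bases -/
theorem prod_lower {H : ℝ} {t : ℕ} (hH : 1 ≤ H) (hHt : 4 * H ^ 2 ≤ t) (hF : ∀ i, Dig H (F i))
    (hpos : ∀ i, 0 < (F i).natDegree) {K : ℕ} (hK : ∑ i, (F i).natDegree ≤ K)
    (U : Finset (Fin m)) (σ : L →+* ℂ) :
    (t : ℝ) ^ (∑ i ∈ U, (F i).natDegree) ≤
      (2 * H) ^ K * ‖σ (io L (∏ i ∈ U, (F i).eval (t : 𝓞 L)))‖ := by
  rw [map_prod, map_prod, norm_prod, ← Finset.prod_pow_eq_pow_sum]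
  have h1 : ∏ i ∈ U, (t : ℝ) ^ (F i).natDegree ≤
      ∏ i ∈ U, (2 * H * ‖σ (io L ((F i).eval (t : 𝓞 L)))‖) :=
    Finset.prod_le_prod (fun i _ => by positivity) fun i _ => (hF i).lower hH hHt σ
  refine h1.trans ?_
  rw [Finset.prod_mul_distrib, Finset.prod_const]
  apply mul_le_mul_of_nonneg_right _ (Finset.prod_nonneg fun i _ => norm_nonneg _)
  apply pow_le_pow_right₀ (by linarith)
  calc U.card = ∑ _i ∈ U, 1 := by simp
    _ ≤ ∑ i ∈ U, (F i).natDegree := Finset.sum_le_sum fun i _ => hpos i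
    _ ≤ ∑ i, (F i).natDegree := Finset.sum_le_univ_sum_of_nonneg fun _ => Nat.zero_le _
    _ ≤ K := hK

end Pool.Agent.Q277.SN
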