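import Mathlib
import Pool.Agent.Q277.SN.Deg

/-!
# The identity and the archimedean inequality
-/

set_option autoImplicit false
set_option linter.unusedSectionVars false

namespace Pool.Agent.Q277.SN

open Polynomial Finset NumberField Filter

variable {L : Type} [Field L] [NumberField L]

lemma Dig.mono {H H' : ℝ} {P : (𝓞 L)[X]} (h : Dig H P) (hH : 0 < H) (hle : H ≤ H') : Dig H' P :=
  ⟨fun j => (h.coeff j).trans hle, fun σ => (inv_anti₀ hH hle).trans (h.lead σ)⟩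

lemma Data.mono {K : ℕ} {H H' : ℝ} {m : ℕ} {F : Fin m → (𝓞 L)[X]} {α β γ : 𝓞 L}
    {l b c : Fin m → ℕ} (h : Data K H F α β γ l b c) (hH : 0 < H) (hle : H ≤ H') :
    Data K H' F α β γ l b c :=
  ⟨h.pos, h.deg, fun i => (h.dig i).mono hH hle, h.last, h.α0, h.β0, h.γ0, h.αH.trans hle,
    h.βH.trans hle, h.γH.trans hle, h.lH.trans hle, h.bH.trans hle, h.cH.trans hle⟩

lemma bound_t {δ : ℝ} (hδ0 : 0 < δ) (hδ1 : δ ≤ 1 / 4) {t : ℕ} (ht : 256 ≤ t) :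
    1 ≤ (t : ℝ) ^ δ ∧ 4 * ((t : ℝ) ^ δ) ^ 2 ≤ t := by
  have htR : (256 : ℝ) ≤ t := by exact_mod_cast ht
  have ht0 : (0 : ℝ) < t := by linarith
  obtain ⟨H, hH⟩ : ∃ H : ℝ, H = (t : ℝ) ^ δ := ⟨_, rfl⟩
  have hH1 : 1 ≤ H := by rw [hH]; exact Real.one_le_rpow (by linarith) hδ0.le
  obtain ⟨q, hq⟩ : ∃ q : ℝ, q = (t : ℝ) ^ (1 / 4 : ℝ) := ⟨_, rfl⟩
  have hq4 : q ^ 4 = t := by
    rw [hq, ← Real.rpow_mul_natCast ht0.le]
    norm_num
  have hq0 : 0 ≤ q := by rw [hq]; positivity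
  have hq3 : 4 ≤ q := by
    by_contra hcon
    push Not at hcon
    have : q ^ 4 < 4 ^ 4 := pow_lt_pow_left₀ hcon hq0 (by norm_num)
    rw [hq4] at this
    norm_num at this
    linarith
  have hH2 : H ≤ q := by
    rw [hH, hq]
    exact Real.rpow_le_rpow_of_exponent_le (by linarith) hδ1
  have hqt : 4 * q ^ 2 ≤ t := by
    rw [← hq4]
    nlinarith [sq_nonneg q]
  rw [← hH]
  exact ⟨hH1, by nlinarith⟩

/-- sums over proper subsets -/
lemma sub_ne_zero {A : Type} [AddCommGroup A] {f : Fin 3 → A} (h0 : f 0 + f 1 + f 2 = 0)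
    (hf : ∀ k, f k ≠ 0) (S : Finset (Fin 3)) (h1 : S.Nonempty) (h2 : S ≠ Finset.univ) :
    ∑ k ∈ S, f k ≠ 0 := by
  have hsum : ∑ k, f k = 0 := by rw [Fin.sum_univ_three, h0]
  have hcard : S.card < 3 := by
    have h3 : S.card ≤ 3 := by simpa using Finset.card_le_univ S
    rcases Nat.lt_or_ge S.card 3 with h | h
    · exact h
    · exfalso
      apply h2
      apply (Finset.card_eq_iff_eq_univ S).mp
      simp
      omega
  have hpos : 0 < S.card := Finset.card_pos.mpr h1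
  rcases (by omega : S.card = 1 ∨ S.card = 2) with h | h
  · obtain ⟨k, rfl⟩ := Finset.card_eq_one.mp h
    rw [Finset.sum_singleton]
    exact hf k
  · have h3 : Sᶜ.card = 1 := by
      rw [Finset.card_compl, h]
      simp
    obtain ⟨k, hk⟩ := Finset.card_eq_one.mp h3
    intro h4
    have h5 := Finset.sum_add_sum_compl S f
    rw [h4, hk, Finset.sum_singleton, hsum, zero_add] at h5
    exact hf k h5

/-- **The identity**, uniformly in all number fields. -/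
theorem three (K : ℕ) : ∃ δ : ℝ, 0 < δ ∧ ∃ t₀ : ℕ, ∀ t : ℕ, t₀ ≤ t →
    ∀ (L : Type) [Field L] [NumberField L] (m : ℕ) (F : Fin m → (𝓞 L)[X]) (α β γ : 𝓞 L)
      (l b c : Fin m → ℕ), Data K ((t : ℝ) ^ δ) F α β γ l b c →
      α * ∏ i, (F i).eval (t : 𝓞 L) ^ l i + β * ∏ i, (F i).eval (t : 𝓞 L) ^ b i +
        γ * ∏ i, (F i).eval (t : 𝓞 L) ^ c i = 0 →
      ¬ ((t : 𝓞 L) ∣ α * ∏ i, (F i).eval (t : 𝓞 L) ^ l i ∧
        (t : 𝓞 L) ∣ β * ∏ i, (F i).eval (t : 𝓞 L) ^ b i) →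
      C α * ∏ i, F i ^ l i + C β * ∏ i, F i ^ b i + C γ * ∏ i, F i ^ c i = 0 := by
  classical
  obtain ⟨J, hJ⟩ : ∃ J, J = Pool.Agent.Q103.SD.JJ K 3 := ⟨_, rfl⟩
  obtain ⟨δ, hδ⟩ : ∃ δ : ℝ, δ = 1 / (4 * (2 * J + 1)) := ⟨_, rfl⟩
  have hδ0 : 0 < δ := by rw [hδ]; positivity
  have hδJ : δ * (2 * J + 1) ≤ 1 / 4 := by rw [hδ]; field_simp; norm_num
  refine ⟨δ, hδ0, 256, ?_⟩
  intro t ht L _ _ m F α β γ l b c hD heq hnd
  have htR : (256 : ℝ) ≤ t := by exact_mod_cast ht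
  have ht0 : (0 : ℝ) < t := by linarith
  obtain ⟨H, hH⟩ : ∃ H : ℝ, H = (t : ℝ) ^ δ := ⟨_, rfl⟩
  rw [← hH] at hD
  have hH1 : 1 ≤ H := by rw [hH]; exact Real.one_le_rpow (by linarith) hδ0.le
  have hpow : ∀ k : ℕ, k ≤ 2 * J + 1 → H ^ k ≤ (t : ℝ) ^ (1 / 4 : ℝ) := by
    intro k hk
    rw [hH, ← Real.rpow_mul_natCast ht0.le]
    apply Real.rpow_le_rpow_of_exponent_le (by linarith)
    have h1 : (k : ℝ) ≤ 2 * J + 1 := by exact_mod_cast hk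
    exact (mul_le_mul_of_nonneg_left h1 hδ0.le).trans hδJ
  obtain ⟨q, hq⟩ : ∃ q : ℝ, q = (t : ℝ) ^ (1 / 4 : ℝ) := ⟨_, rfl⟩
  have hq4 : q ^ 4 = t := by
    rw [hq, ← Real.rpow_mul_natCast ht0.le]
    norm_num
  have hq0 : 0 ≤ q := by rw [hq]; positivity
  have hq3 : 4 ≤ q := by
    by_contra hcon
    push Not at hcon
    have : q ^ 4 < 4 ^ 4 := pow_lt_pow_left₀ hcon hq0 (by norm_num)
    rw [hq4] at this
    norm_num at this
    linarith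
  have hH2 : H ≤ q := by
    have := hpow 1 (by omega)
    rwa [pow_one, ← hq] at this
  have hqt : 4 * q ^ 2 ≤ t := by
    rw [← hq4]
    nlinarith [sq_nonneg q]
  have hHt : 4 * H ^ 2 ≤ t := by nlinarith
  have hF0 : ∀ i, F i ≠ 0 := ne_of_pos hD.pos
  have hev : ∀ i, (F i).eval (t : 𝓞 L) ≠ 0 := fun i => (hD.dig i).ne_zero hH1 hHt
  have hprod : ∀ (η : 𝓞 L) (e : Fin m → ℕ), η ≠ 0 →
      η * ∏ i, (F i).eval (t : 𝓞 L) ^ e i ≠ 0 := fun η e hη =>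
    mul_ne_zero hη (Finset.prod_ne_zero_iff.mpr fun i _ => pow_ne_zero _ (hev i))
  have hN1 : 1 ≤ ⌊H⌋₊ := Nat.le_floor (by exact_mod_cast hH1)
  have hNH : ((⌊H⌋₊ : ℕ) : ℝ) ≤ H := Nat.floor_le (by linarith)
  have hsize : ((Fintype.card (Fin 3) : ℕ) : ℝ) * H *
      (((⌊H⌋₊ : ℕ) : ℝ) * H) ^ (Pool.Agent.Q103.SD.JJ K (Fintype.card (Fin 3))) < t := by
    rw [Fintype.card_fin, ← hJ]
    have h1 : (((⌊H⌋₊ : ℕ) : ℝ) * H) ^ J ≤ (H * H) ^ J :=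
      pow_le_pow_left₀ (by positivity) (mul_le_mul_of_nonneg_right hNH (by linarith)) J
    have h2 : H * (H * H) ^ J = H ^ (2 * J + 1) := by
      rw [← pow_two, ← pow_mul, pow_succ, mul_comm]
    have h3 : H ^ (2 * J + 1) ≤ q := by rw [hq]; exact hpow _ le_rfl
    have h4 : ((3 : ℕ) : ℝ) * H * (((⌊H⌋₊ : ℕ) : ℝ) * H) ^ J ≤ 3 * q := by
      calc ((3 : ℕ) : ℝ) * H * (((⌊H⌋₊ : ℕ) : ℝ) * H) ^ J
          = 3 * (H * (((⌊H⌋₊ : ℕ) : ℝ) * H) ^ J) := by push_cast; ring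
        _ ≤ 3 * (H * (H * H) ^ J) := by
            apply mul_le_mul_of_nonneg_left _ (by norm_num)
            exact mul_le_mul_of_nonneg_left h1 (by linarith)
        _ ≤ 3 * q := by rw [h2]; linarith
    nlinarith
  have h := Pool.Agent.Q103.SD.identity (A := 𝓞 L) (κ := Fin m) (ι := Fin 3)
    (s := fun x => house (io L x)) house_size (t := (t : 𝓞 L))
    (by exact_mod_cast (show t ≠ 0 by omega)) (T := (t : ℝ)) (fun x h1 h2 => eq_zero_of_dvd h1 h2)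
    (F := F) hF0 (D := K) hD.deg (H := H) hH1 hD.last (fun i j => (hD.dig i).coeff j)
    (α := ![α, β, γ]) (by
      intro k
      fin_cases k
      · exact hD.α0
      · exact hD.β0
      · exact hD.γ0) (by
      intro k
      fin_cases k
      · exact hD.αH
      · exact hD.βH
      · exact hD.γH) ![l, b, c] (N := ⌊H⌋₊) hN1 (by
      intro k
      fin_cases k
      · exact Nat.le_floor hD.lH
      · exact Nat.le_floor hD.bH
      · exact Nat.le_floor hD.cH) hsize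
  simp only [Pool.Agent.Q103.SD.eval_PP] at h
  have hterm : ∀ k : Fin 3, (![α, β, γ] k) * ∏ i, (F i).eval (t : 𝓞 L) ^ (![l, b, c] k i) ≠ 0 := by
    intro k
    fin_cases k
    · exact hprod α l hD.α0
    · exact hprod β b hD.β0
    · exact hprod γ c hD.γ0
  have hzero : (![α, β, γ] 0) * ∏ i, (F i).eval (t : 𝓞 L) ^ (![l, b, c] 0 i) +
      (![α, β, γ] 1) * ∏ i, (F i).eval (t : 𝓞 L) ^ (![l, b, c] 1 i) +
      (![α, β, γ] 2) * ∏ i, (F i).eval (t : 𝓞 L) ^ (![l, b, c] 2 i) = 0 := heq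
  have hno := fun S hS hS' => sub_ne_zero (A := 𝓞 L)
    (f := fun k => (![α, β, γ] k) * ∏ i, (F i).eval (t : 𝓞 L) ^ (![l, b, c] k i)) hzero hterm S hS hS'
  have hsum0 : ∑ k, (![α, β, γ] k) * ∏ i, (F i).eval (t : 𝓞 L) ^ (![l, b, c] k i) = 0 := by
    rw [Fin.sum_univ_three]
    exact hzero
  have hfin : ∀ k0 : Fin 3, ¬ (t : 𝓞 L) ∣ (![α, β, γ] k0) *
      ∏ i, (F i).eval (t : 𝓞 L) ^ (![l, b, c] k0 i) →
      C α * ∏ i, F i ^ l i + C β * ∏ i, F i ^ b i + C γ * ∏ i, F i ^ c i = 0 := by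
    intro k0 hk0
    have h2 := h hsum0 k0 hk0 hno
    rw [Fin.sum_univ_three] at h2
    exact h2
  by_cases h1 : (t : 𝓞 L) ∣ α * ∏ i, (F i).eval (t : 𝓞 L) ^ l i
  · exact hfin 1 fun h2 => hnd ⟨h1, h2⟩
  · exact hfin 0 h1

/-- **The archimedean inequality.** -/
theorem abc_size (K : ℕ) (ε : ℝ) (hε : 0 < ε) : ∃ δ : ℝ, 0 < δ ∧ ∃ t₀ : ℕ, ∀ t : ℕ, t₀ ≤ t →
    ∀ (L : Type) [Field L] [NumberField L] (m : ℕ) (F : Fin m → (𝓞 L)[X]) (α β γ : 𝓞 L)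
      (l b c : Fin m → ℕ), Data K ((t : ℝ) ^ δ) F α β γ l b c →
      IsCoprime (α * ∏ i, (F i).eval (t : 𝓞 L) ^ l i) (β * ∏ i, (F i).eval (t : 𝓞 L) ^ b i) →
      C α * ∏ i, F i ^ l i + C β * ∏ i, F i ^ b i + C γ * ∏ i, F i ^ c i = 0 →
      (used l b c).Nonempty →
      ∀ x : 𝓞 L, x = α * ∏ i, (F i).eval (t : 𝓞 L) ^ l i ∨ x = β * ∏ i, (F i).eval (t : 𝓞 L) ^ b i ∨
          x = γ * ∏ i, (F i).eval (t : 𝓞 L) ^ c i →
        ∀ σ : L →+* ℂ, ‖σ (io L x)‖ * (t : ℝ) ^ (1 - ε) ≤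
          ‖σ (io L (∏ i ∈ used l b c, (F i).eval (t : 𝓞 L)))‖ := by
  classical
  obtain ⟨δ, hδ⟩ : ∃ δ : ℝ, δ = min (1 / 4) (ε / (2 * (2 * K + 1))) := ⟨_, rfl⟩
  have hδ0 : 0 < δ := by rw [hδ]; exact lt_min (by norm_num) (by positivity)
  have hδ1 : δ ≤ 1 / 4 := by rw [hδ]; exact min_le_left _ _
  have hδ2 : δ * (2 * K + 1) ≤ ε / 2 := by
    have h1 : δ ≤ ε / (2 * (2 * K + 1)) := by rw [hδ]; exact min_le_right _ _
    calc δ * (2 * K + 1) ≤ ε / (2 * (2 * K + 1)) * (2 * K + 1) :=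
          mul_le_mul_of_nonneg_right h1 (by positivity)
      _ = ε / 2 := by field_simp
  have hw : Tendsto (fun t : ℕ => (t : ℝ) ^ (ε / 2)) atTop atTop :=
    (tendsto_rpow_atTop (by positivity)).comp tendsto_natCast_atTop_atTop
  obtain ⟨t₀, ht₀⟩ := eventually_atTop.mp
    ((hw.eventually_ge_atTop ((4 : ℝ) ^ K)).and (eventually_ge_atTop 256))
  refine ⟨δ, hδ0, t₀, ?_⟩
  intro t ht L _ _ m F α β γ l b c hD hcop hid hU x hx σ
  obtain ⟨h4, ht256⟩ := ht₀ t ht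
  have htR : (256 : ℝ) ≤ t := by exact_mod_cast ht256
  have ht0 : (0 : ℝ) < t := by linarith
  obtain ⟨H, hH⟩ : ∃ H : ℝ, H = (t : ℝ) ^ δ := ⟨_, rfl⟩
  rw [← hH] at hD
  have hH1 : 1 ≤ H := by rw [hH]; exact Real.one_le_rpow (by linarith) hδ0.le
  obtain ⟨q, hq⟩ : ∃ q : ℝ, q = (t : ℝ) ^ (1 / 4 : ℝ) := ⟨_, rfl⟩
  have hq4 : q ^ 4 = t := by
    rw [hq, ← Real.rpow_mul_natCast ht0.le]
    norm_num
  have hq0 : 0 ≤ q := by rw [hq]; positivity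
  have hq3 : 4 ≤ q := by
    by_contra hcon
    push Not at hcon
    have : q ^ 4 < 4 ^ 4 := pow_lt_pow_left₀ hcon hq0 (by norm_num)
    rw [hq4] at this
    norm_num at this
    linarith
  have hH2 : H ≤ q := by
    rw [hH, hq]
    exact Real.rpow_le_rpow_of_exponent_le (by linarith) hδ1
  have hqt : 4 * q ^ 2 ≤ t := by
    rw [← hq4]
    nlinarith [sq_nonneg q]
  have hHt : 4 * H ^ 2 ≤ t := by nlinarith
  have hHt2 : H ^ 2 + 2 ≤ t := by nlinarith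
  have hco := coprime_poly hD hH1 hHt2 hcop
  obtain ⟨d1, d2, d3⟩ := degrees hD.pos hD.α0 hD.β0 hD.γ0 hco hid hU
  obtain ⟨d, hd⟩ : ∃ d, d + 1 = ∑ i ∈ used l b c, (F i).natDegree := by
    refine ⟨∑ i ∈ used l b c, (F i).natDegree - 1, ?_⟩
    omega
  have hdK : d + 1 ≤ K := by
    rw [hd]
    exact (Finset.sum_le_univ_sum_of_nonneg fun _ => Nat.zero_le _).trans hD.deg
  have hxs : ‖σ (io L x)‖ ≤ H * ((2 * H) ^ d * (t : ℝ) ^ d) := by
    rcases hx with rfl | rfl | rfl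
    · exact size_PP hH1 hHt hD.dig hD.pos hD.αH l (by omega) σ
    · exact size_PP hH1 hHt hD.dig hD.pos hD.βH b (by omega) σ
    · exact size_PP hH1 hHt hD.dig hD.pos hD.γH c (by omega) σ
  have hlow := prod_lower hH1 hHt hD.dig hD.pos hD.deg (used l b c) σ
  rw [← hd] at hlow
  obtain ⟨Q, hQ⟩ : ∃ Q, Q = ‖σ (io L (∏ i ∈ used l b c, (F i).eval (t : 𝓞 L)))‖ := ⟨_, rfl⟩
  rw [← hQ] at hlow ⊢
  have hHK : H ^ (2 * K + 1) ≤ (t : ℝ) ^ (ε / 2) := by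
    rw [hH, ← Real.rpow_mul_natCast ht0.le]
    apply Real.rpow_le_rpow_of_exponent_le (by linarith)
    push_cast
    exact hδ2
  have h6 : (t : ℝ) ^ (1 - ε) * ((t : ℝ) ^ (ε / 2) * (t : ℝ) ^ (ε / 2)) = t := by
    rw [← Real.rpow_add ht0, ← Real.rpow_add ht0]
    have : 1 - ε + (ε / 2 + ε / 2) = 1 := by ring
    rw [this, Real.rpow_one]
  obtain ⟨τ, hτ⟩ : ∃ τ : ℝ, τ = (t : ℝ) ^ (ε / 2) := ⟨_, rfl⟩
  obtain ⟨τ', hτ'⟩ : ∃ τ' : ℝ, τ' = (t : ℝ) ^ (1 - ε) := ⟨_, rfl⟩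
  rw [← hτ, ← hτ'] at h6
  rw [← hτ] at h4 hHK
  rw [← hτ']
  have hτ0 : 0 < τ := by rw [hτ]; positivity
  have hτ'0 : 0 < τ' := by rw [hτ']; positivity
  have hQ0 : 0 ≤ Q := by rw [hQ]; exact norm_nonneg _
  have hH0 : 0 < H := by linarith
  have h5 : H * (2 * H) ^ d * (2 * H) ^ K ≤ 4 ^ K * H ^ (2 * K + 1) := by
    calc H * (2 * H) ^ d * (2 * H) ^ K ≤ H * (2 * H) ^ K * (2 * H) ^ K := by
          apply mul_le_mul_of_nonneg_right _ (by positivity)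
          apply mul_le_mul_of_nonneg_left _ hH0.le
          exact pow_le_pow_right₀ (by linarith) (by omega)
      _ = 4 ^ K * H ^ (2 * K + 1) := by
          rw [mul_assoc, ← mul_pow, show (2 * H * (2 * H)) = 4 * H ^ 2 by ring, mul_pow, ← pow_mul,
            pow_succ]
          ring
  have h7 : ‖σ (io L x)‖ * τ' * (τ * τ) ≤ Q * (τ * τ) := by
    calc ‖σ (io L x)‖ * τ' * (τ * τ) ≤ H * ((2 * H) ^ d * (t : ℝ) ^ d) * τ' * (τ * τ) := by
          apply mul_le_mul_of_nonneg_right _ (by positivity)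
          exact mul_le_mul_of_nonneg_right hxs hτ'0.le
      _ = H * (2 * H) ^ d * (t : ℝ) ^ (d + 1) := by
          rw [pow_succ]
          linear_combination (H * (2 * H) ^ d * (t : ℝ) ^ d) * h6
      _ ≤ H * (2 * H) ^ d * ((2 * H) ^ K * Q) := mul_le_mul_of_nonneg_left hlow (by positivity)
      _ = H * (2 * H) ^ d * (2 * H) ^ K * Q := by ring
      _ ≤ 4 ^ K * H ^ (2 * K + 1) * Q := mul_le_mul_of_nonneg_right h5 hQ0
      _ ≤ τ * τ * Q := by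
          apply mul_le_mul_of_nonneg_right _ hQ0
          exact mul_le_mul h4 hHK (by positivity) hτ0.le
      _ = Q * (τ * τ) := by ring
  exact le_of_mul_le_mul_right h7 (by positivity)

end Pool.Agent.Q277.SN
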