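import Mathlib
import Pool.Agent.Q277.SN.Id

/-!
# Heights and conductors
-/

set_option autoImplicit false
set_option linter.unusedSectionVars false

namespace Pool.Agent.Q277.SN

open Finset NumberField IsDedekindDomain

open Classical in
/-- the height -/
noncomputable def Ht {L : Type} [Field L] [NumberField L] (a b c : L) : ℝ :=
  (((FractionalIdeal.absNorm
      (FractionalIdeal.spanSingleton (nonZeroDivisors (𝓞 L)) a
        + FractionalIdeal.spanSingleton (nonZeroDivisors (𝓞 L)) b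
        + FractionalIdeal.spanSingleton (nonZeroDivisors (𝓞 L)) c) : ℚ) : ℝ)⁻¹
    * ∏ᶠ τ : L →+* ℂ, max (max ‖τ a‖ ‖τ b‖) ‖τ c‖) ^ ((1 : ℝ) / (Module.finrank ℚ L : ℝ))

open Classical in
/-- the conductor -/
noncomputable def Cd {L : Type} [Field L] [NumberField L] (a b c : L) : ℝ :=
  (∏ᶠ v : HeightOneSpectrum (𝓞 L),
    if v.valuation L a = v.valuation L b ∧ v.valuation L b = v.valuation L c
    then (1 : ℝ) else (Ideal.absNorm v.asIdeal : ℝ)) ^ ((1 : ℝ) / (Module.finrank ℚ L : ℝ))

open Classical in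
/-- the radical of one element -/
noncomputable def Rd {L : Type} [Field L] [NumberField L] (x : L) : ℝ :=
  (∏ᶠ v : HeightOneSpectrum (𝓞 L),
    if v.valuation L x = 1 then (1 : ℝ) else (Ideal.absNorm v.asIdeal : ℝ))
      ^ ((1 : ℝ) / (Module.finrank ℚ L : ℝ))

variable {L : Type} [Field L] [NumberField L]

lemma Ht_eq {x y : 𝓞 L} (z : 𝓞 L) (h : IsCoprime x y) :
    Ht (io L x) (io L y) (io L z) =
      (∏ τ : L →+* ℂ, max (max ‖τ (io L x)‖ ‖τ (io L y)‖) ‖τ (io L z)‖)
        ^ ((1 : ℝ) / (Module.finrank ℚ L : ℝ)) := by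
  have h1 : FractionalIdeal.spanSingleton (nonZeroDivisors (𝓞 L)) (io L x)
        + FractionalIdeal.spanSingleton (nonZeroDivisors (𝓞 L)) (io L y)
        + FractionalIdeal.spanSingleton (nonZeroDivisors (𝓞 L)) (io L z) = 1 := by
    rw [← FractionalIdeal.coeIdeal_span_singleton, ← FractionalIdeal.coeIdeal_span_singleton,
      ← FractionalIdeal.coeIdeal_span_singleton, ← FractionalIdeal.coeIdeal_sup,
      ← FractionalIdeal.coeIdeal_sup]
    have h2 : Ideal.span {x} ⊔ Ideal.span {y} = ⊤ := (Ideal.isCoprime_span_singleton_iff x y).mpr h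
      |>.sup_eq
    rw [h2, top_sup_eq, FractionalIdeal.coeIdeal_top]
  unfold Ht
  rw [h1, FractionalIdeal.absNorm_one, Rat.cast_one, inv_one, one_mul,
    finprod_eq_prod_of_fintype]

lemma absNorm_eq (Q : 𝓞 L) :
    (Ideal.absNorm (Ideal.span {Q}) : ℝ) = ∏ τ : L →+* ℂ, ‖τ (io L Q)‖ := by
  have h1 := Algebra.norm_eq_prod_embeddings ℚ ℂ (io L Q)
  have h2 : ∏ τ : L →+* ℂ, ‖τ (io L Q)‖ = ∏ σ : L →ₐ[ℚ] ℂ, ‖σ (io L Q)‖ :=
    Fintype.prod_equiv (RingHom.equivRatAlgHom L ℂ) _ _ (fun τ => rfl)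
  rw [h2, ← norm_prod, ← h1, Ideal.absNorm_span_singleton]
  have h3 : Algebra.norm ℚ (io L Q) = ((Algebra.norm ℤ Q : ℤ) : ℚ) := (Algebra.coe_norm_int Q).symm
  rw [h3, map_intCast, Complex.norm_intCast, Nat.cast_natAbs]
  push_cast
  rfl

lemma mem_iff (v : HeightOneSpectrum (𝓞 L)) (x : 𝓞 L) :
    v.valuation L (io L x) ≠ 1 ↔ x ∈ v.asIdeal := by
  have h := v.valuation_eq_one_iff_notMem (K := L) (r := x)
  unfold io
  rw [Ne, h, not_not]

lemma finite_mem {x : 𝓞 L} (hx : x ≠ 0) :
    {v : HeightOneSpectrum (𝓞 L) | x ∈ v.asIdeal}.Finite := by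
  have h : Ideal.span {x} ≠ 0 := by simp [hx]
  have h1 := Ideal.finite_factors h
  refine h1.subset fun v hv => ?_
  rw [Set.mem_ofPred_eq, Ideal.dvd_span_singleton]
  exact hv

lemma one_le_absNorm (v : HeightOneSpectrum (𝓞 L)) : (1 : ℝ) ≤ (Ideal.absNorm v.asIdeal : ℝ) := by
  exact_mod_cast (HeightOneSpectrum.one_lt_absNorm v).le

/-- the radical of `Q` is at most the conductor -/
theorem Rd_le_Cd {x y z Q : 𝓞 L} (hx : x ≠ 0) (hy : y ≠ 0) (hz : z ≠ 0) (hQ : Q ≠ 0)
    (hcop : IsCoprime x y)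
    (h : ∀ v : HeightOneSpectrum (𝓞 L), Q ∈ v.asIdeal → x ∈ v.asIdeal ∨ y ∈ v.asIdeal ∨
      z ∈ v.asIdeal) : Rd (io L Q) ≤ Cd (io L x) (io L y) (io L z) := by
  classical
  obtain ⟨S, hS⟩ : ∃ S : Finset (HeightOneSpectrum (𝓞 L)), ∀ v, v ∉ S →
      x ∉ v.asIdeal ∧ y ∉ v.asIdeal ∧ z ∉ v.asIdeal ∧ Q ∉ v.asIdeal := by
    have hf := ((finite_mem hx).union (finite_mem hy)).union ((finite_mem hz).union (finite_mem hQ))
    refine ⟨hf.toFinset, fun v hv => ?_⟩
    rw [Set.Finite.mem_toFinset] at hv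
    simp only [Set.mem_union, Set.mem_ofPred_eq, not_or] at hv
    exact ⟨hv.1.1, hv.1.2, hv.2.1, hv.2.2⟩
  have hone : ∀ (v : HeightOneSpectrum (𝓞 L)) (a : 𝓞 L), a ∉ v.asIdeal →
      v.valuation L (io L a) = 1 := by
    intro v a ha
    by_contra hne
    exact ha ((mem_iff v a).mp hne)
  unfold Rd Cd
  rw [finprod_eq_prod_of_mulSupport_subset (s := S), finprod_eq_prod_of_mulSupport_subset (s := S)]
  · apply Real.rpow_le_rpow
    · apply Finset.prod_nonneg
      intro v _
      split_ifs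
      · exact zero_le_one
      · exact Nat.cast_nonneg _
    · apply Finset.prod_le_prod
      · intro v _
        split_ifs
        · exact zero_le_one
        · exact Nat.cast_nonneg _
      · intro v _
        by_cases h1 : v.valuation L (io L Q) = 1
        · rw [if_pos h1]
          split_ifs
          · exact le_rfl
          · exact one_le_absNorm v
        · rw [if_neg h1, if_neg]
          rintro ⟨h2, h3⟩
          have h4 := h v ((mem_iff v Q).mp h1)
          have hxy : x ∈ v.asIdeal ∧ y ∈ v.asIdeal := by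
            rw [← mem_iff, ← mem_iff] at *
            rw [← mem_iff] at h4
            rcases h4 with h5 | h5 | h5
            · exact ⟨h5, by rw [← h2]; exact h5⟩
            · exact ⟨by rw [h2]; exact h5, h5⟩
            · exact ⟨by rw [h2, h3]; exact h5, by rw [h3]; exact h5⟩
          obtain ⟨a, b, hab⟩ := hcop
          apply v.isPrime.ne_top
          rw [Ideal.eq_top_iff_one, ← hab]
          exact v.asIdeal.add_mem (v.asIdeal.mul_mem_left a hxy.1) (v.asIdeal.mul_mem_left b hxy.2)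
    · positivity
  · intro v hv
    by_contra hvS
    obtain ⟨h1, h2, h3, -⟩ := hS v hvS
    apply hv
    change (if _ then (1 : ℝ) else _) = 1
    rw [if_pos]
    rw [hone v x h1, hone v y h2, hone v z h3]
    exact ⟨rfl, rfl⟩
  · intro v hv
    by_contra hvS
    obtain ⟨-, -, -, h4⟩ := hS v hvS
    apply hv
    change (if _ then (1 : ℝ) else _) = 1
    rw [if_pos (hone v Q h4)]

/-- the norm of a squarefree element -/
theorem Rd_squarefree {Q : 𝓞 L} (hQ : Q ≠ 0) (hsq : Squarefree (Ideal.span {Q})) :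
    Rd (io L Q) = (Ideal.absNorm (Ideal.span {Q}) : ℝ) ^ ((1 : ℝ) / (Module.finrank ℚ L : ℝ)) := by
  classical
  have hI : Ideal.span {Q} ≠ 0 := by simp [hQ]
  unfold Rd
  congr 1
  have h1 := Ideal.finprod_heightOneSpectrum_factorization hI
  have h2 : ∀ v : HeightOneSpectrum (𝓞 L), (if v.valuation L (io L Q) = 1 then (1 : ℝ)
      else (Ideal.absNorm v.asIdeal : ℝ)) = (Ideal.absNorm (v.maxPowDividing (Ideal.span {Q})) : ℝ) := by
    intro v
    unfold HeightOneSpectrum.maxPowDividing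
    have hle : (Associates.mk v.asIdeal).count (Associates.mk (Ideal.span {Q})).factors ≤ 1 := by
      by_contra hcon
      push Not at hcon
      have h3 := (Associates.prime_pow_dvd_iff_le (Associates.mk_ne_zero.mpr hI)
        (Associates.irreducible_mk.mpr v.irreducible) (k := 2)).mpr hcon
      rw [← Associates.mk_pow, Associates.mk_le_mk_iff_dvd, pow_two] at h3
      exact v.irreducible.not_isUnit (hsq _ h3)
    by_cases hv : Q ∈ v.asIdeal
    · rw [if_neg ((mem_iff v Q).mpr hv)]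
      have h3 : (Associates.mk v.asIdeal).count (Associates.mk (Ideal.span {Q})).factors ≠ 0 := by
        rw [Associates.count_ne_zero_iff_dvd hI v.irreducible, Ideal.dvd_span_singleton]
        exact hv
      have h4 : (Associates.mk v.asIdeal).count (Associates.mk (Ideal.span {Q})).factors = 1 := by
        omega
      rw [h4, pow_one]
    · rw [if_pos (by
        by_contra hne
        exact hv ((mem_iff v Q).mp hne))]
      have h3 : (Associates.mk v.asIdeal).count (Associates.mk (Ideal.span {Q})).factors = 0 := by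
        by_contra hne
        rw [← Ne, Associates.count_ne_zero_iff_dvd hI v.irreducible, Ideal.dvd_span_singleton] at hne
        exact hv hne
      rw [h3, pow_zero, Ideal.one_eq_top, Ideal.absNorm_top, Nat.cast_one]
  rw [finprod_congr h2]
  have h_prod : (Ideal.absNorm (∏ᶠ (v : HeightOneSpectrum (𝓞 L)), v.maxPowDividing (Ideal.span {Q})) : ℝ) =
      ∏ᶠ (v : HeightOneSpectrum (𝓞 L)), (Ideal.absNorm (v.maxPowDividing (Ideal.span {Q})) : ℝ) :=
    ((Nat.castRingHom ℝ).toMonoidHom.comp Ideal.absNorm.toMonoidHom).map_finprod_of_preimage_one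
      (by simp) _
  rw [← h_prod, h1]

end Pool.Agent.Q277.SN
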